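import Mathlib

/-! Capacity lemma of helper19's proof (MP_953b28): the share function. -/

namespace Pool.Agent.H23FR

/-- the rational function `F P = 2P^3/(3P^2+1)` takes every value in `[0,1]` on `[0,2]`. -/
theorem exists_share (x : ℝ) (h0 : 0 ≤ x) (h1 : x ≤ 1) :
    ∃ P : ℝ, 0 ≤ P ∧ P ≤ 2 ∧ 2 * P ^ 3 = x * (3 * P ^ 2 + 1) := by
  have hcont : ContinuousOn (fun P : ℝ => 2 * P ^ 3 - x * (3 * P ^ 2 + 1)) (Set.Icc 0 2) := by
    fun_prop
  have h := intermediate_value_Icc (by norm_num : (0 : ℝ) ≤ 2) hcont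
  have hm : (0 : ℝ) ∈ Set.Icc ((fun P : ℝ => 2 * P ^ 3 - x * (3 * P ^ 2 + 1)) 0)
      ((fun P : ℝ => 2 * P ^ 3 - x * (3 * P ^ 2 + 1)) 2) := by
    constructor
    · simp only; nlinarith
    · simp only; nlinarith
  obtain ⟨P, hP, hv⟩ := h hm
  exact ⟨P, hP.1, hP.2, by simp only at hv; linarith⟩

/-- the cubic inequality `a(a^2+b^2) ≤ (2/3) P (S+b^3)` once `a^3 (3P^2+1) ≤ 2P^3 S`. -/
theorem cubic_ineq (a b S P : ℝ) (ha : 0 ≤ a) (hb : 0 ≤ b) (hP : 0 ≤ P)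
    (h : a ^ 3 * (3 * P ^ 2 + 1) ≤ 2 * P ^ 3 * S) :
    a * (a ^ 2 + b ^ 2) ≤ 2 / 3 * P * (S + b ^ 3) := by
  rcases hP.eq_or_lt with h0 | hP
  · subst h0
    have ha3 : a ^ 3 ≤ 0 := by nlinarith
    have : a = 0 := by
      by_contra hne
      have : 0 < a := lt_of_le_of_ne ha (Ne.symm hne)
      have : 0 < a ^ 3 := by positivity
      linarith
    subst this
    nlinarith
  · -- `P^2 * (rhs - lhs) ≥ (2/3) (P b - a)^2 (P b + a/2) ≥ 0`
    have hkey : 0 ≤ (P * b - a) ^ 2 * (P * b + a / 2) := by positivity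
    have hP2 : 0 < P ^ 2 := by positivity
    have : 0 ≤ P ^ 2 * (2 / 3 * P * (S + b ^ 3) - a * (a ^ 2 + b ^ 2)) := by
      have e : P ^ 2 * (2 / 3 * P * (S + b ^ 3) - a * (a ^ 2 + b ^ 2))
          = 1 / 3 * (2 * P ^ 3 * S - a ^ 3 * (3 * P ^ 2 + 1))
            + 2 / 3 * ((P * b - a) ^ 2 * (P * b + a / 2)) := by ring
      rw [e]; nlinarith
    by_contra hcon
    push Not at hcon
    have : P ^ 2 * (2 / 3 * P * (S + b ^ 3) - a * (a ^ 2 + b ^ 2)) < 0 := by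
      apply mul_neg_of_pos_of_neg hP2; linarith
    linarith

/-- CAPACITY LEMMA: the two shares at an edge whose ends have deficits `a` and `c`. -/
theorem capacity (a c : ℝ) (ha : 0 ≤ a) (hc : 0 ≤ c) :
    ∃ l : ℝ, 0 ≤ l ∧ l ≤ 1 ∧
      (∀ b : ℝ, 0 ≤ b → 3 / 4 * (a * (a ^ 2 + b ^ 2)) ≤ l * (a ^ 3 + b ^ 3 + c ^ 3)) ∧
      (∀ d : ℝ, 0 ≤ d → 3 / 4 * (c * (c ^ 2 + d ^ 2)) ≤ (1 - l) * (a ^ 3 + d ^ 3 + c ^ 3)) := by
  have ha3 : 0 ≤ a ^ 3 := by positivity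
  have hc3 : 0 ≤ c ^ 3 := by positivity
  rcases (add_nonneg ha3 hc3).eq_or_lt with h0 | hS
  · have ha0 : a = 0 := by
      by_contra hne
      have : 0 < a := lt_of_le_of_ne ha (Ne.symm hne)
      have : 0 < a ^ 3 := by positivity
      linarith
    have hc0 : c = 0 := by
      by_contra hne
      have : 0 < c := lt_of_le_of_ne hc (Ne.symm hne)
      have : 0 < c ^ 3 := by positivity
      linarith
    subst ha0; subst hc0
    refine ⟨1 / 2, by norm_num, by norm_num, ?_, ?_⟩ <;> intro b hb <;>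
      have : 0 ≤ b ^ 3 := (by positivity) <;> nlinarith
  · set S := a ^ 3 + c ^ 3 with hSdef
    obtain ⟨P, hP0, hP2, hPx⟩ := exists_share (a ^ 3 / S) (by positivity)
      (by rw [div_le_one hS]; linarith)
    have hx : a ^ 3 * (3 * P ^ 2 + 1) = 2 * P ^ 3 * S := by
      rw [hPx]; field_simp
    refine ⟨P / 2, by linarith, by linarith, ?_, ?_⟩
    · intro b hb
      have := cubic_ineq a b S P ha hb hP0 hx.le
      have e : a ^ 3 + b ^ 3 + c ^ 3 = S + b ^ 3 := by rw [hSdef]; ring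
      rw [e]; nlinarith
    · intro d hd
      have hQ : c ^ 3 * (3 * (2 - P) ^ 2 + 1) ≤ 2 * (2 - P) ^ 3 * S := by
        -- `(3P^2+1) * (rhs - lhs) = S * 3 u^4`-type identity, `u = P - 1`
        have hD : 0 < 3 * P ^ 2 + 1 := by positivity
        have hc' : c ^ 3 = S - a ^ 3 := by rw [hSdef]; ring
        have key : 0 ≤ (3 * P ^ 2 + 1) *
            (2 * (2 - P) ^ 3 * S - c ^ 3 * (3 * (2 - P) ^ 2 + 1)) := by
          have e : (3 * P ^ 2 + 1) * (2 * (2 - P) ^ 3 * S - c ^ 3 * (3 * (2 - P) ^ 2 + 1))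
              = S * (3 * (P - 1) ^ 4)
                + (3 * (2 - P) ^ 2 + 1) * (a ^ 3 * (3 * P ^ 2 + 1) - 2 * P ^ 3 * S) := by
            rw [hc']; ring
          rw [e, hx]; nlinarith [mul_nonneg hS.le (by positivity : (0:ℝ) ≤ 3 * (P - 1) ^ 4)]
        by_contra hcon
        push Not at hcon
        have : (3 * P ^ 2 + 1) * (2 * (2 - P) ^ 3 * S - c ^ 3 * (3 * (2 - P) ^ 2 + 1)) < 0 := by
          apply mul_neg_of_pos_of_neg hD; linarith
        linarith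
      have := cubic_ineq c d S (2 - P) hc hd (by linarith) hQ
      have e : a ^ 3 + d ^ 3 + c ^ 3 = S + d ^ 3 := by rw [hSdef]; ring
      rw [e]; nlinarith

end Pool.Agent.H23FR
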