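import Mathlib
import Pool.Agent.Helper92.Proto.Defs

/-! Protoplexes with a dead cell: for `1 ≤ m`, `2m ≤ n` there are an `(n-m)`-protoplex `P` of order
`n` and an empty cell `(r,c)` such that every symbol occurs in row `r` or in column `c`. -/

namespace Pool.Agent.H23Dead

open Finset
open Pool.Agent.Helper92.Proto (IsProtoplex)

section Regular

variable {V : Type*} [Fintype V] [DecidableEq V]

/-- `E` is a `d`-regular bipartite graph between two copies of `V`. -/
def Reg (E : V → V → Prop) [∀ v w, Decidable (E v w)] (d : ℕ) : Prop :=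
  (∀ v, (univ.filter fun w => E v w).card = d) ∧ ∀ w, (univ.filter fun v => E v w).card = d

/-- removal of a perfect matching. -/
theorem reg_remove (E : V → V → Prop) [∀ v w, Decidable (E v w)] (d : ℕ) (hE : Reg E (d + 1))
    (f : V → V) (hf : Function.Injective f) (hEf : ∀ v, E v (f v)) :
    Reg (fun v w => E v w ∧ f v ≠ w) d := by
  have hb : Function.Bijective f := (Fintype.bijective_iff_injective_and_card f).2 ⟨hf, rfl⟩
  constructor
  · intro v
    have h : (univ.filter fun w => E v w ∧ f v ≠ w) = (univ.filter fun w => E v w).erase (f v) := by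
      ext w
      simp only [mem_filter, mem_univ, true_and, mem_erase]
      constructor
      · rintro ⟨h1, h2⟩; exact ⟨fun h => h2 h.symm, h1⟩
      · rintro ⟨h1, h2⟩; exact ⟨h2, fun h => h1 h.symm⟩
    rw [h, card_erase_of_mem (by simp [hEf v]), hE.1 v]; rfl
  · intro w
    obtain ⟨v, hv⟩ := hb.2 w
    have h : (univ.filter fun v => E v w ∧ f v ≠ w) = (univ.filter fun v => E v w).erase v := by
      ext u
      simp only [mem_filter, mem_univ, true_and, mem_erase]
      constructor
      · rintro ⟨h1, h2⟩; exact ⟨fun h => h2 (h ▸ hv), h1⟩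
      · rintro ⟨h1, h2⟩; exact ⟨h2, fun h => h1 (hf (h.trans hv.symm))⟩
    rw [h, card_erase_of_mem (by simp only [mem_filter, mem_univ, true_and]; exact hv ▸ hEf v),
      hE.2 w]; rfl

/-- a regular bipartite graph of positive degree has a perfect matching (Hall). -/
theorem exists_matching (E : V → V → Prop) [∀ v w, Decidable (E v w)] (d : ℕ)
    (hE : Reg E (d + 1)) : ∃ f : V → V, Function.Injective f ∧ ∀ v, E v (f v) := by
  have key : ∀ s : Finset V, s.card ≤ (s.biUnion fun v => univ.filter fun w => E v w).card := by
    intro s
    set N := s.biUnion fun v => univ.filter fun w => E v w with hN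
    have h1 : ∑ v ∈ s, (N.filter fun w => E v w).card = s.card * (d + 1) := by
      rw [Finset.card_eq_sum_ones, Finset.sum_mul]
      refine Finset.sum_congr rfl fun v hv => ?_
      rw [one_mul, ← hE.1 v]
      congr 1
      ext w
      simp only [mem_filter, mem_univ, true_and, and_iff_right_iff_imp]
      intro hw
      rw [hN, mem_biUnion]
      exact ⟨v, hv, by simp [hw]⟩
    have h2 : ∑ v ∈ s, (N.filter fun w => E v w).card
        = ∑ w ∈ N, (s.filter fun v => E v w).card := by
      simp only [Finset.card_filter]
      rw [Finset.sum_comm]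
    have h3 : ∑ w ∈ N, (s.filter fun v => E v w).card ≤ N.card * (d + 1) := by
      rw [Finset.card_eq_sum_ones, Finset.sum_mul]
      refine Finset.sum_le_sum fun w _ => ?_
      rw [one_mul, ← hE.2 w]
      exact card_le_card (filter_subset_filter _ (subset_univ s))
    have h4 : s.card * (d + 1) ≤ N.card * (d + 1) := by rw [← h1, h2]; exact h3
    exact Nat.le_of_mul_le_mul_right h4 (Nat.succ_pos d)
  obtain ⟨f, hf, hf2⟩ := (Finset.all_card_le_biUnion_card_iff_exists_injective
    (fun v => univ.filter fun w => E v w)).1 key
  exact ⟨f, hf, fun v => by simpa using hf2 v⟩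

/-- a `d`-regular bipartite graph is the disjoint union of `d` perfect matchings. -/
theorem exists_decomposition (d : ℕ) : ∀ (E : V → V → Prop) [∀ v w, Decidable (E v w)], Reg E d →
    ∃ τ : Fin d → V → V, (∀ r, Function.Injective (τ r)) ∧ (∀ r v, E v (τ r v)) ∧
      ∀ v, Function.Injective fun r => τ r v := by
  induction d with
  | zero =>
    intro E _ _
    exact ⟨fun r => r.elim0, fun r => r.elim0, fun r => r.elim0, fun v r => r.elim0⟩
  | succ d ih =>
    intro E _ hE
    obtain ⟨f, hf, hEf⟩ := exists_matching E d hE
    obtain ⟨τ, h1, h2, h3⟩ := ih (fun v w => E v w ∧ f v ≠ w) (reg_remove E d hE f hf hEf)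
    refine ⟨Fin.cons f τ, ?_, ?_, ?_⟩
    · intro r
      refine Fin.cases ?_ (fun r => ?_) r
      · simpa using hf
      · simpa using h1 r
    · intro r v
      refine Fin.cases ?_ (fun r => ?_) r
      · simpa using hEf v
      · simpa using (h2 r v).1
    · intro v r r' h
      revert h
      refine Fin.cases ?_ (fun r => ?_) r
      · refine Fin.cases ?_ (fun r' => ?_) r'
        · intro _; rfl
        · intro h
          exact absurd (by simpa using h) (h2 r' v).2
      · refine Fin.cases ?_ (fun r' => ?_) r'
        · intro h
          exact absurd (by simpa using h.symm) (h2 r v).2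
        · intro h
          have : τ r v = τ r' v := by simpa using h
          rw [h3 v this]

/-- the same with a prescribed first matching. -/
theorem exists_decomposition' (d : ℕ) (E : V → V → Prop) [∀ v w, Decidable (E v w)]
    (hE : Reg E (d + 1)) (f : V → V) (hf : Function.Injective f) (hEf : ∀ v, E v (f v)) :
    ∃ τ : Fin (d + 1) → V → V, τ 0 = f ∧ (∀ r, Function.Injective (τ r)) ∧
      (∀ r v, E v (τ r v)) ∧ ∀ v, Function.Injective fun r => τ r v := by
  obtain ⟨τ, h1, h2, h3⟩ := exists_decomposition d (fun v w => E v w ∧ f v ≠ w)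
    (reg_remove E d hE f hf hEf)
  refine ⟨Fin.cons f τ, by simp, ?_, ?_, ?_⟩
  · intro r
    refine Fin.cases ?_ (fun r => ?_) r
    · simpa using hf
    · simpa using h1 r
  · intro r v
    refine Fin.cases ?_ (fun r => ?_) r
    · simpa using hEf v
    · simpa using (h2 r v).1
  · intro v r r' h
    revert h
    refine Fin.cases ?_ (fun r => ?_) r
    · refine Fin.cases ?_ (fun r' => ?_) r'
      · intro _; rfl
      · intro h
        exact absurd (by simpa using h) (h2 r' v).2
    · refine Fin.cases ?_ (fun r' => ?_) r'
      · intro h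
        exact absurd (by simpa using h.symm) (h2 r v).2
      · intro h
        have : τ r v = τ r' v := by simpa using h
        rw [h3 v this]

/-- every edge is used by a matching of the decomposition. -/
theorem used (d : ℕ) (E : V → V → Prop) [∀ v w, Decidable (E v w)] (hE : Reg E d)
    (τ : Fin d → V → V) (h2 : ∀ r v, E v (τ r v)) (h3 : ∀ v, Function.Injective fun r => τ r v)
    (v w : V) (h : E v w) : ∃ r, τ r v = w := by
  have hsub : univ.image (fun r => τ r v) ⊆ univ.filter fun w => E v w := by
    intro x hx
    obtain ⟨r, _, hr⟩ := mem_image.1 hx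
    simp [← hr, h2 r v]
  have hcard : (univ.filter fun w => E v w).card ≤ (univ.image (fun r => τ r v)).card := by
    rw [hE.1 v, card_image_of_injective _ (h3 v), card_univ, Fintype.card_fin]
  have heq := eq_of_subset_of_card_le hsub hcard
  have hw : w ∈ univ.image (fun r => τ r v) := by rw [heq]; simp [h]
  obtain ⟨r, _, hr⟩ := mem_image.1 hw
  exact ⟨r, hr⟩

end Regular

section Construct

variable (n m : ℕ)

/-- the pairs (column or dummy column, symbol or dummy symbol) to be used once each. -/
def E [NeZero n] : Fin n ⊕ Fin m → Fin n ⊕ Fin m → Prop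
  | Sum.inl t, Sum.inl x => m ≤ (x - t).val
  | Sum.inl _, Sum.inr _ => True
  | Sum.inr _, Sum.inl _ => True
  | Sum.inr _, Sum.inr _ => False

instance [NeZero n] : ∀ v w, Decidable (E n m v w)
  | Sum.inl t, Sum.inl x => inferInstanceAs (Decidable (m ≤ (x - t).val))
  | Sum.inl _, Sum.inr _ => inferInstanceAs (Decidable True)
  | Sum.inr _, Sum.inl _ => inferInstanceAs (Decidable True)
  | Sum.inr _, Sum.inr _ => inferInstanceAs (Decidable False)

theorem card_ge (hm : m ≤ n) : (univ.filter fun y : Fin n => m ≤ y.val).card = n - m := by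
  have h : (univ.filter fun y : Fin n => m ≤ y.val).card
      + (univ.filter fun y : Fin n => ¬ m ≤ y.val).card = n := by
    rw [card_filter_add_card_filter_not]; simp
  have h2 : (univ.filter fun y : Fin n => ¬ m ≤ y.val).card = m := by
    have : (univ.filter fun y : Fin n => ¬ m ≤ y.val)
        = (univ : Finset (Fin m)).map (Fin.castLEEmb hm) := by
      ext y
      simp only [mem_filter, mem_univ, true_and, not_le, mem_map, Fin.castLEEmb_apply]
      constructor
      · intro hy; exact ⟨⟨y.val, hy⟩, by ext; simp⟩
      · rintro ⟨a, rfl⟩; simp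
    rw [this, card_map, card_univ, Fintype.card_fin]
  omega

theorem card_sum (p : Fin n ⊕ Fin m → Prop) [DecidablePred p] :
    (univ.filter p).card = (univ.filter fun t : Fin n => p (Sum.inl t)).card
      + (univ.filter fun i : Fin m => p (Sum.inr i)).card := by
  simp only [card_filter, Fintype.sum_sum_type]

theorem card_true {k : ℕ} (p : Fin k → Prop) [DecidablePred p] (h : ∀ i, p i) :
    (univ.filter p).card = k := by
  rw [filter_true_of_mem (fun i _ => h i), card_univ, Fintype.card_fin]

theorem card_false {k : ℕ} (p : Fin k → Prop) [DecidablePred p] (h : ∀ i, ¬ p i) :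
    (univ.filter p).card = 0 := by
  rw [filter_false_of_mem (fun i _ => h i), card_empty]

theorem reg_E [NeZero n] (hm : m ≤ n) : Reg (E n m) n := by
  constructor
  · rintro (t | i)
    · rw [card_sum]
      have h1 : (univ.filter fun x : Fin n => E n m (Sum.inl t) (Sum.inl x)).card = n - m := by
        rw [← card_ge n m hm]
        refine card_bij (fun x _ => x - t) ?_ ?_ ?_
        · intro x hx
          simp only [mem_filter, mem_univ, true_and] at hx ⊢
          exact hx
        · intro x _ y _ h; exact sub_left_injective h
        · intro y hy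
          simp only [mem_filter, mem_univ, true_and] at hy
          refine ⟨y + t, ?_, by simp⟩
          simp only [mem_filter, mem_univ, true_and]
          change m ≤ (y + t - t).val
          rw [add_sub_cancel_right]; exact hy
      have h2 : (univ.filter fun i : Fin m => E n m (Sum.inl t) (Sum.inr i)).card = m :=
        card_true _ fun _ => trivial
      rw [h1, h2]; omega
    · rw [card_sum, card_true (fun t : Fin n => E n m (Sum.inr i) (Sum.inl t)) fun _ => trivial,
        card_false (fun j : Fin m => E n m (Sum.inr i) (Sum.inr j)) fun _ h => h]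
      rfl
  · rintro (x | j)
    · rw [card_sum]
      have h1 : (univ.filter fun t : Fin n => E n m (Sum.inl t) (Sum.inl x)).card = n - m := by
        rw [← card_ge n m hm]
        refine card_bij (fun t _ => x - t) ?_ ?_ ?_
        · intro t ht
          simp only [mem_filter, mem_univ, true_and] at ht ⊢
          exact ht
        · intro t _ u _ h; exact sub_right_injective h
        · intro y hy
          simp only [mem_filter, mem_univ, true_and] at hy
          refine ⟨x - y, ?_, by simp⟩
          simp only [mem_filter, mem_univ, true_and]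
          change m ≤ (x - (x - y)).val
          rw [sub_sub_cancel]; exact hy
      have h2 : (univ.filter fun i : Fin m => E n m (Sum.inr i) (Sum.inl x)).card = m :=
        card_true _ fun _ => trivial
      rw [h1, h2]; omega
    · rw [card_sum, card_true (fun t : Fin n => E n m (Sum.inl t) (Sum.inr j)) fun _ => trivial,
        card_false (fun i : Fin m => E n m (Sum.inr i) (Sum.inr j)) fun _ h => h]
      rfl

end Construct

/-- THE DEAD CELL. -/
theorem exists_dead (n m : ℕ) (hm : 1 ≤ m) (hn : 2 * m ≤ n) :
    ∃ P : Fin n → Fin n → Option (Fin n), IsProtoplex n (n - m) P ∧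
      ∃ r c, P r c = none ∧ ∀ s, (∃ c', P r c' = some s) ∨ ∃ r', P r' c = some s := by
  obtain ⟨d, rfl⟩ : ∃ d, n = d + 1 := ⟨n - 1, by omega⟩
  have hmn : m < d + 1 := by omega
  let mm : Fin (d + 1) := ⟨m, hmn⟩
  let ci : Fin m → Fin (d + 1) := fun i => ⟨i.val, by omega⟩
  -- the first row
  let f : Fin (d + 1) ⊕ Fin m → Fin (d + 1) ⊕ Fin m := fun v => match v with
    | Sum.inl t => if h : t.val < m then Sum.inr ⟨t.val, h⟩ else Sum.inl (t + mm)
    | Sum.inr i => Sum.inl (ci i + mm)
  have f1 : ∀ t : Fin (d + 1), (h : t.val < m) → f (Sum.inl t) = Sum.inr ⟨t.val, h⟩ := by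
    intro t h; simp [f, h]
  have f2 : ∀ t : Fin (d + 1), ¬ t.val < m → f (Sum.inl t) = Sum.inl (t + mm) := by
    intro t h; simp [f, h]
  have f3 : ∀ i : Fin m, f (Sum.inr i) = Sum.inl (ci i + mm) := fun i => rfl
  have hf : Function.Injective f := by
    rintro (t | i) (u | j) h
    · by_cases ht : t.val < m <;> by_cases hu : u.val < m
      · rw [f1 t ht, f1 u hu] at h
        have := Sum.inr.inj h
        rw [Fin.mk.injEq] at this
        rw [Fin.ext this]
      · rw [f1 t ht, f2 u hu] at h; exact absurd h (by simp)
      · rw [f2 t ht, f1 u hu] at h; exact absurd h (by simp)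
      · rw [f2 t ht, f2 u hu] at h
        rw [add_right_cancel (Sum.inl.inj h)]
    · by_cases ht : t.val < m
      · rw [f1 t ht, f3] at h; exact absurd h (by simp)
      · rw [f2 t ht, f3] at h
        have h' := add_right_cancel (Sum.inl.inj h)
        exact absurd (by rw [h']; exact j.2) ht
    · by_cases hu : u.val < m
      · rw [f1 u hu, f3] at h; exact absurd h (by simp)
      · rw [f2 u hu, f3] at h
        have h' := add_right_cancel (Sum.inl.inj h)
        exact absurd (by rw [← h']; exact i.2) hu
    · rw [f3, f3] at h
      have h' := add_right_cancel (Sum.inl.inj h)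
      have : i.val = j.val := by simpa [ci] using h'
      rw [Fin.ext this]
  have hEf : ∀ v, E (d + 1) m v (f v) := by
    rintro (t | i)
    · by_cases ht : t.val < m
      · rw [f1 t ht]; trivial
      · rw [f2 t ht]
        change m ≤ (t + mm - t).val
        rw [add_sub_cancel_left]
    · rw [f3]; trivial
  have hreg := reg_E (d + 1) m (by omega)
  obtain ⟨τ, t0, t1, t2, t3⟩ := exists_decomposition' d (E (d + 1) m) hreg f hf hEf
  have hused := used (d + 1) (E (d + 1) m) hreg τ t2 t3
  let P : Fin (d + 1) → Fin (d + 1) → Option (Fin (d + 1)) :=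
    fun r c => (τ r (Sum.inl c)).elim some (fun _ => none)
  have hP : ∀ r c s, P r c = some s ↔ τ r (Sum.inl c) = Sum.inl s := by
    intro r c s
    simp only [P]
    rcases τ r (Sum.inl c) with x | j <;> simp
  have hPn : ∀ r c, P r c ≠ none ↔ ∃ s, τ r (Sum.inl c) = Sum.inl s := by
    intro r c
    rw [Option.ne_none_iff_exists']
    exact exists_congr fun s => hP r c s
  have hbij : ∀ r, Function.Bijective (τ r) := fun r =>
    (Fintype.bijective_iff_injective_and_card (τ r)).2 ⟨t1 r, rfl⟩
  refine ⟨P, ⟨?_, ?_, ?_, ?_, ?_⟩, 0, 0, ?_, ?_⟩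
  · intro r c c' s h h'
    rw [hP] at h h'
    exact Sum.inl.inj (t1 r (h.trans h'.symm))
  · intro r r' c s h h'
    rw [hP] at h h'
    exact t3 (Sum.inl c) (h.trans h'.symm)
  · intro s
    have h1 : (univ.filter fun c : Fin (d + 1) => E (d + 1) m (Sum.inl c) (Sum.inl s)).card
        = d + 1 - m := by
      have := hreg.2 (Sum.inl s)
      rw [card_sum] at this
      have h2 : (univ.filter fun i : Fin m => E (d + 1) m (Sum.inr i) (Sum.inl s)).card = m :=
        card_true _ fun _ => trivial
      omega
    rw [← h1]
    refine card_bij (fun x _ => x.2) ?_ ?_ ?_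
    · intro x hx
      simp only [mem_filter, mem_univ, true_and] at hx ⊢
      rw [hP] at hx
      rw [← hx]; exact t2 _ _
    · intro x hx y hy hxy
      simp only [mem_filter, mem_univ, true_and] at hx hy
      rw [hP] at hx hy
      rw [← hxy] at hy
      exact Prod.ext (t3 (Sum.inl x.2) (hx.trans hy.symm)) hxy
    · intro c hc
      simp only [mem_filter, mem_univ, true_and] at hc
      obtain ⟨r, hr⟩ := hused _ _ hc
      exact ⟨(r, c), by simp only [mem_filter, mem_univ, true_and]; exact (hP r c s).2 hr, rfl⟩
  · intro r
    have h1 : (univ.filter fun c => ¬ P r c ≠ none).card = m := by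
      have : (univ.filter fun j : Fin m => True).card = m := by simp
      rw [← this]
      symm
      -- dummy symbol `j` is used in row `r` in exactly one real column
      have hex : ∀ j : Fin m, ∃ c : Fin (d + 1), τ r (Sum.inl c) = Sum.inr j := by
        intro j
        obtain ⟨v, hv⟩ := (hbij r).2 (Sum.inr j)
        rcases v with c | i
        · exact ⟨c, hv⟩
        · have := t2 r (Sum.inr i)
          rw [hv] at this
          exact absurd this id
      choose g hg using hex
      refine card_bij (fun j _ => g j) ?_ ?_ ?_
      · intro j _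
        simp only [mem_filter, mem_univ, true_and]
        rw [hPn, hg j]
        simp
      · intro j _ j' _ h
        have := hg j
        rw [h, hg j'] at this
        exact (Sum.inr.inj this).symm
      · intro c hc
        simp only [mem_filter, mem_univ, true_and] at hc
        rw [hPn] at hc
        rcases hcase : τ r (Sum.inl c) with x | j
        · exact absurd ⟨x, hcase⟩ hc
        · refine ⟨j, by simp, ?_⟩
          have := t1 r ((hg j).trans hcase.symm)
          exact Sum.inl.inj this
    have h2 := card_filter_add_card_filter_not (s := (univ : Finset (Fin (d + 1))))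
      (fun c => P r c ≠ none)
    rw [h1, card_univ, Fintype.card_fin] at h2
    omega
  · intro c
    have h1 : (univ.filter fun s : Fin (d + 1) => E (d + 1) m (Sum.inl c) (Sum.inl s)).card
        = d + 1 - m := by
      have := hreg.1 (Sum.inl c)
      rw [card_sum] at this
      have h2 : (univ.filter fun i : Fin m => E (d + 1) m (Sum.inl c) (Sum.inr i)).card = m :=
        card_true _ fun _ => trivial
      omega
    rw [← h1]
    symm
    have hex : ∀ s : Fin (d + 1), ∃ r, E (d + 1) m (Sum.inl c) (Sum.inl s) →
        τ r (Sum.inl c) = Sum.inl s := by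
      intro s
      by_cases h : E (d + 1) m (Sum.inl c) (Sum.inl s)
      · obtain ⟨r, hr⟩ := hused _ _ h
        exact ⟨r, fun _ => hr⟩
      · exact ⟨0, fun h' => absurd h' h⟩
    choose g hg using hex
    refine card_bij (fun s _ => g s) ?_ ?_ ?_
    · intro s hs
      simp only [mem_filter, mem_univ, true_and] at hs ⊢
      rw [hPn]; exact ⟨s, hg s hs⟩
    · intro s hs s' hs' h
      simp only [mem_filter, mem_univ, true_and] at hs hs'
      have h1 := hg s hs
      have h2 := hg s' hs'
      rw [h, h2] at h1
      exact (Sum.inl.inj h1).symm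
    · intro r hr
      simp only [mem_filter, mem_univ, true_and] at hr
      rw [hPn] at hr
      obtain ⟨s, hs⟩ := hr
      have hE : E (d + 1) m (Sum.inl c) (Sum.inl s) := by rw [← hs]; exact t2 _ _
      refine ⟨s, by simp only [mem_filter, mem_univ, true_and]; exact hE, ?_⟩
      exact t3 (Sum.inl c) ((hg s hE).trans hs.symm)
  · -- the cell (0,0) is empty
    by_contra h
    rw [← ne_eq, hPn] at h
    obtain ⟨s, hs⟩ := h
    rw [t0, f1 0 (by change 0 < m; omega)] at hs
    exact absurd hs (by simp)
  · intro s
    by_cases ht : (s - mm).val < m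
    · right
      have hsv : m ≤ s.val := by
        have e : s = (s - mm) + mm := by simp
        have e2 : s.val = ((s - mm).val + mm.val) % (d + 1) := by
          conv_lhs => rw [e]
          exact Fin.val_add _ _
        have hmmv : mm.val = m := rfl
        rw [hmmv, Nat.mod_eq_of_lt (by omega)] at e2
        omega
      have hE : E (d + 1) m (Sum.inl 0) (Sum.inl s) := by
        change m ≤ (s - 0).val
        rw [sub_zero]; exact hsv
      obtain ⟨r, hr⟩ := hused _ _ hE
      exact ⟨r, (hP _ _ _).2 hr⟩
    · left
      refine ⟨s - mm, (hP _ _ _).2 ?_⟩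
      rw [t0, f2 _ ht]
      simp

end Pool.Agent.H23Dead
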