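import Mathlib

/-! (F1) compactness and the first order condition for `∑ v, (W v - ∑ t, b v t * y t)^4`
over the packing polytope `0 ≤ y ≤ M`, `∑ t, a e t * y t ≤ w e`. -/

namespace Pool.Agent.H23FR

open Filter Topology

/-- a linear inequality kept for small steps from `p` towards `q`. -/
theorem ev_le (p q r : ℝ) (h : p ≤ r) (h' : p = r → q ≤ r) :
    ∀ᶠ ε in 𝓝[>] (0 : ℝ), (1 - ε) * p + ε * q ≤ r := by
  rcases h.eq_or_lt with h0 | h0
  · have hI : Set.Ioc (0 : ℝ) 1 ∈ 𝓝[>] (0 : ℝ) := Ioc_mem_nhdsGT one_pos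
    filter_upwards [hI] with ε hε
    have hq := h' h0
    rw [h0]
    nlinarith [hε.1, hε.2]
  · have hc : Continuous (fun ε : ℝ => (1 - ε) * p + ε * q) := by fun_prop
    have ht : Tendsto (fun ε : ℝ => (1 - ε) * p + ε * q) (𝓝[>] 0) (𝓝 p) := by
      have := (hc.tendsto 0).mono_left (nhdsWithin_le_nhds (s := Set.Ioi (0 : ℝ)))
      simpa using this
    filter_upwards [ht.eventually_lt_const h0] with ε hε
    exact hε.le

/-- second order expansion of the fourth power. -/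
theorem fourth_le (p s ε : ℝ) (h0 : 0 ≤ ε) (h1 : ε ≤ 1) :
    (p - ε * s) ^ 4 ≤ p ^ 4 - 4 * ε * (p ^ 3 * s)
      + ε ^ 2 * (6 * p ^ 2 * s ^ 2 + 4 * |p * s ^ 3| + s ^ 4) := by
  have hs : -(p * s ^ 3) ≤ |p * s ^ 3| := neg_le_abs _
  have ha : 0 ≤ |p * s ^ 3| := abs_nonneg _
  have e3 : -(4 * ε ^ 3 * (p * s ^ 3)) ≤ 4 * ε ^ 2 * |p * s ^ 3| := by
    have h3 : 0 ≤ ε ^ 3 := by positivity
    have h32 : ε ^ 3 ≤ ε ^ 2 := by
      have : 0 ≤ ε ^ 2 := by positivity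
      nlinarith
    have := mul_le_mul_of_nonneg_left hs h3
    have := mul_le_mul_of_nonneg_right h32 ha
    linarith
  have e4 : ε ^ 4 * s ^ 4 ≤ ε ^ 2 * s ^ 4 := by
    have h4 : 0 ≤ s ^ 4 := by positivity
    have h42 : ε ^ 4 ≤ ε ^ 2 := by
      have h2 : 0 ≤ ε ^ 2 := by positivity
      have h21 : ε ^ 2 ≤ 1 := by nlinarith
      nlinarith
    exact mul_le_mul_of_nonneg_right h42 h4
  nlinarith

variable {V E T : Type*} [Fintype V] [Fintype E] [Fintype T]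

/-- (F1) EXISTENCE OF AN OPTIMAL PACKING WITH ITS FIRST ORDER CONDITION. -/
theorem exists_optimal (a : E → T → ℝ) (b : V → T → ℝ) (w : E → ℝ) (hw : ∀ e, 0 ≤ w e)
    (M : ℝ) (hM : 0 ≤ M) (W : V → ℝ) :
    ∃ y : T → ℝ, (∀ t, 0 ≤ y t) ∧ (∀ t, y t ≤ M) ∧ (∀ e, ∑ t, a e t * y t ≤ w e) ∧
      ∀ y' : T → ℝ, (∀ t, 0 ≤ y' t) → (∀ t, y t = M → y' t ≤ M) →
        (∀ e, ∑ t, a e t * y t = w e → ∑ t, a e t * y' t ≤ w e) →
        ∑ v, (W v - ∑ t, b v t * y t) ^ 3 * ∑ t, b v t * y' t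
          ≤ ∑ v, (W v - ∑ t, b v t * y t) ^ 3 * ∑ t, b v t * y t := by
  classical
  let K : Set (T → ℝ) := {y | (∀ t, 0 ≤ y t) ∧ (∀ t, y t ≤ M) ∧ ∀ e, ∑ t, a e t * y t ≤ w e}
  have hKc : IsCompact K := by
    have hsub : K ⊆ Set.pi Set.univ (fun _ : T => Set.Icc (0 : ℝ) M) := by
      intro y hy t _
      exact ⟨hy.1 t, hy.2.1 t⟩
    have hcl : IsClosed K := by
      have h1 : IsClosed {y : T → ℝ | ∀ t, 0 ≤ y t} := by
        simp only [Set.ofPred_forall]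
        exact isClosed_iInter fun t => isClosed_le continuous_const (continuous_apply t)
      have h2 : IsClosed {y : T → ℝ | ∀ t, y t ≤ M} := by
        simp only [Set.ofPred_forall]
        exact isClosed_iInter fun t => isClosed_le (continuous_apply t) continuous_const
      have h3 : IsClosed {y : T → ℝ | ∀ e, ∑ t, a e t * y t ≤ w e} := by
        simp only [Set.ofPred_forall]
        exact isClosed_iInter fun e => isClosed_le (by fun_prop) continuous_const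
      exact h1.inter (h2.inter h3)
    exact (isCompact_univ_pi fun _ => isCompact_Icc).of_isClosed_subset hcl hsub
  have hKne : K.Nonempty := ⟨fun _ => 0, fun _ => le_rfl, fun _ => hM, fun e => by simpa using hw e⟩
  have hF : ContinuousOn (fun y : T → ℝ => ∑ v, (W v - ∑ t, b v t * y t) ^ 4) K := by fun_prop
  obtain ⟨y, hyK, hmin⟩ := hKc.exists_isMinOn hKne hF
  refine ⟨y, hyK.1, hyK.2.1, hyK.2.2, ?_⟩
  intro y' h0 hcap hload
  by_contra hcon
  push Not at hcon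
  -- `s v` = gain at `v`, `p v` = deficit
  set p : V → ℝ := fun v => W v - ∑ t, b v t * y t with hp
  set s : V → ℝ := fun v => ∑ t, b v t * y' t - ∑ t, b v t * y t with hs
  have hS : 0 < ∑ v, p v ^ 3 * s v := by
    have : ∑ v, p v ^ 3 * s v = ∑ v, p v ^ 3 * ∑ t, b v t * y' t
        - ∑ v, p v ^ 3 * ∑ t, b v t * y t := by
      rw [← Finset.sum_sub_distrib]
      exact Finset.sum_congr rfl fun v _ => by rw [hs]; ring
    rw [this]; linarith
  set S := ∑ v, p v ^ 3 * s v with hSdef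
  set C := ∑ v, (6 * p v ^ 2 * s v ^ 2 + 4 * |p v * s v ^ 3| + s v ^ 4) with hC
  have hC0 : 0 ≤ C := Finset.sum_nonneg fun v _ => by positivity
  have hlin : ∀ (c : T → ℝ) (ε : ℝ), ∑ t, c t * ((1 - ε) * y t + ε * y' t)
      = (1 - ε) * ∑ t, c t * y t + ε * ∑ t, c t * y' t := by
    intro c ε
    rw [Finset.mul_sum, Finset.mul_sum, ← Finset.sum_add_distrib]
    exact Finset.sum_congr rfl fun t _ => by ring
  have evK : ∀ᶠ ε in 𝓝[>] (0 : ℝ), (fun t => (1 - ε) * y t + ε * y' t) ∈ K := by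
    have e1 : ∀ᶠ ε in 𝓝[>] (0 : ℝ), ∀ t, (1 - ε) * y t + ε * y' t ≤ M := by
      rw [Filter.eventually_all]
      exact fun t => ev_le _ _ _ (hyK.2.1 t) (hcap t)
    have e2 : ∀ᶠ ε in 𝓝[>] (0 : ℝ), ∀ e,
        (1 - ε) * ∑ t, a e t * y t + ε * ∑ t, a e t * y' t ≤ w e := by
      rw [Filter.eventually_all]
      exact fun e => ev_le _ _ _ (hyK.2.2 e) (hload e)
    have hI : Set.Ioc (0 : ℝ) 1 ∈ 𝓝[>] (0 : ℝ) := Ioc_mem_nhdsGT one_pos
    filter_upwards [e1, e2, hI] with ε h1 h2 h3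
    refine ⟨fun t => ?_, h1, fun e => ?_⟩
    · have := hyK.1 t
      have := h0 t
      have h31 := h3.1
      have h32 := h3.2
      have : 0 ≤ (1 - ε) * y t := mul_nonneg (by linarith) (hyK.1 t)
      have : 0 ≤ ε * y' t := mul_nonneg h31.le (h0 t)
      linarith
    · rw [hlin]; exact h2 e
  have hI : Set.Ioo (0 : ℝ) (min 1 (4 * S / (C + 1))) ∈ 𝓝[>] (0 : ℝ) :=
    Ioo_mem_nhdsGT (lt_min one_pos (by positivity))
  obtain ⟨ε, hεK, hε⟩ := (evK.and (Filter.eventually_of_mem hI fun _ h => h)).exists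
  have hε0 : 0 < ε := hε.1
  have hε1 : ε < 1 := lt_of_lt_of_le hε.2 (min_le_left _ _)
  have hε2 : ε < 4 * S / (C + 1) := lt_of_lt_of_le hε.2 (min_le_right _ _)
  have hm := hmin hεK
  simp only [Set.mem_ofPred_eq] at hm
  have hup : ∑ v, (W v - ∑ t, b v t * ((1 - ε) * y t + ε * y' t)) ^ 4
      ≤ ∑ v, p v ^ 4 - 4 * ε * S + ε ^ 2 * C := by
    rw [hSdef, hC, Finset.mul_sum, Finset.mul_sum, ← Finset.sum_sub_distrib,
      ← Finset.sum_add_distrib]
    refine Finset.sum_le_sum fun v _ => ?_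
    have : W v - ∑ t, b v t * ((1 - ε) * y t + ε * y' t) = p v - ε * s v := by
      rw [hlin, hp, hs]; ring
    rw [this]
    exact fourth_le _ _ _ hε0.le hε1.le
  have h1 : (∑ v, (W v - ∑ t, b v t * y t) ^ 4) = ∑ v, p v ^ 4 := rfl
  rw [h1] at hm
  have h2 : 4 * ε * S ≤ ε ^ 2 * C := by linarith
  have h3 : 4 * S ≤ ε * C := by
    have : ε * (4 * S) ≤ ε * (ε * C) := by nlinarith
    exact le_of_mul_le_mul_left this hε0
  have h4 : ε * (C + 1) < 4 * S := by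
    rwa [lt_div_iff₀ (by linarith)] at hε2
  nlinarith

end Pool.Agent.H23FR
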